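import Pool.Agent.Helper50.Tm.Goals
import Pool.Agent.Helper82.Nm.Kpt
import Pool.Agent.Helper8.Nm.LIFTK
import Pool.Agent.Helper5.Nm.Trans

/-!
Packet TM-LOC of MP_f619a5_ag: a homomorphism which is constant on the sections through a nonempty
open set is constant on the sections through a connected component.
-/

open CategoryTheory AlgebraicGeometry Limits TensorProduct MonoidalCategory
open scoped Obj

namespace Pool.Agent.Helper83.Tm

open Pool.Agent.Helper40.Nm (specOver homGroup specialFibre)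
open Pool.Agent.Helper50.Tm

theorem cpt_mem_specialFibre {R : Type} [CommRing R] [IsLocalRing R]
    {G : Over (Spec (CommRingCat.of R))} (s : Pts G R) : cpt s ∈ specialFibre G := by
  have h : s.left ≫ G.hom = Spec.map (CommRingCat.ofHom (algebraMap R R)) := Over.w s
  have h2 : s.left ≫ G.hom = 𝟙 _ := by
    rw [h]
    exact Spec.map_id _
  have h3 : (s.left ≫ G.hom) (IsLocalRing.closedPoint R) = IsLocalRing.closedPoint R := by
    rw [h2]
    rfl
  exact h3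

theorem gLOC : Pool.Agent.Helper50.Tm.LOC := by
  intro R _ _ _ _ _ G _ hsm H _ Δ V c hV hΔ s s' hss
  have hKPT := Pool.Agent.Helper82.Nm.kpt Pool.Agent.Helper8.Nm.liftk
  have hTRANS := Pool.Agent.Helper5.Nm.trans
  -- translations
  have hτ : ∀ g0 : Pts G R, ∃ τ : G.left ≃ₜ G.left,
      (∀ r : Pts G R, cpt (g0 * r) = τ (cpt r)) ∧
      ∀ x, τ x ∈ specialFibre G ↔ x ∈ specialFibre G :=
    fun g0 => (hTRANS R G g0).1
  choose τ hτ1 hτ2 using hτ
  let W : Pts G R → Set G.left := fun g0 => τ g0 '' (V : Set G.left)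
  have hWo : ∀ g0, IsOpen (W g0) := fun g0 => (τ g0).isOpenMap _ V.isOpen
  have h1 : ∀ g0 s, cpt s ∈ W g0 → Δ s = Δ g0 * c := by
    intro g0 s hs
    obtain ⟨y, hy, hys⟩ := hs
    have e1 : τ g0 (cpt (g0⁻¹ * s)) = cpt s := by
      rw [← hτ1 g0, mul_inv_cancel_left]
    have e2 : cpt (g0⁻¹ * s) = y := (τ g0).injective (by rw [e1, hys])
    have e3 : Δ (g0⁻¹ * s) = c := hΔ _ (by rw [e2]; exact hy)
    have e4 : Δ (g0 * (g0⁻¹ * s)) = Δ g0 * c := by rw [map_mul, e3]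
    rwa [mul_inv_cancel_left] at e4
  obtain ⟨y0, hy0V, hy0F⟩ := hV
  obtain ⟨v, hvV, -⟩ : ∃ v : Pts G R, cpt v ∈ V ∧ cpt v ∈ closure {y0} :=
    hKPT R G hsm y0 V hy0F hy0V
  have hself : ∀ s : Pts G R, cpt s ∈ W (s * v⁻¹) := by
    intro s
    refine ⟨cpt v, hvV, ?_⟩
    rw [← hτ1, inv_mul_cancel_right]
  have h2 : ∀ x ∈ specialFibre G, ∃ g0, x ∈ W g0 := by
    intro x hx
    obtain ⟨s, -, hs⟩ : ∃ s : Pts G R, cpt s ∈ (⊤ : G.left.Opens) ∧ cpt s ∈ closure {x} :=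
      hKPT R G hsm x ⊤ hx trivial
    refine ⟨s * v⁻¹, ?_⟩
    have := mem_closure_iff.mp hs _ (hWo (s * v⁻¹)) (hself s)
    obtain ⟨z, hz1, hz2⟩ := this
    rw [Set.mem_singleton_iff] at hz2
    rwa [hz2] at hz1
  have h3 : ∀ g0 g1 x, x ∈ specialFibre G → x ∈ W g0 → x ∈ W g1 → Δ g0 * c = Δ g1 * c := by
    intro g0 g1 x hx hx0 hx1
    obtain ⟨s, hs, -⟩ : ∃ s : Pts G R,
        cpt s ∈ (⟨W g0 ∩ W g1, (hWo g0).inter (hWo g1)⟩ : G.left.Opens) ∧
          cpt s ∈ closure {x} :=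
      hKPT R G hsm x ⟨W g0 ∩ W g1, (hWo g0).inter (hWo g1)⟩ hx ⟨hx0, hx1⟩
    have hs' : cpt s ∈ W g0 ∧ cpt s ∈ W g1 := hs
    rw [← h1 g0 s hs'.1, ← h1 g1 s hs'.2]
  by_contra hne
  -- the two open sets
  let O1 : Set G.left := ⋃ g0 ∈ {g0 | Δ g0 * c = Δ s}, W g0
  let O2 : Set G.left := ⋃ g0 ∈ {g0 | Δ g0 * c ≠ Δ s}, W g0
  have hO1 : IsOpen O1 := isOpen_biUnion fun g0 _ => hWo g0
  have hO2 : IsOpen O2 := isOpen_biUnion fun g0 _ => hWo g0
  have hpre : _root_.IsPreconnected (connectedComponentIn (specialFibre G) (cpt s)) :=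
    isPreconnected_connectedComponentIn
  have hsub : connectedComponentIn (specialFibre G) (cpt s) ⊆ specialFibre G :=
    connectedComponentIn_subset _ _
  have hcov : connectedComponentIn (specialFibre G) (cpt s) ⊆ O1 ∪ O2 := by
    intro x hx
    obtain ⟨g0, hg0⟩ := h2 x (hsub hx)
    by_cases hb : Δ g0 * c = Δ s
    · left
      exact Set.mem_biUnion (show g0 ∈ {g0 | Δ g0 * c = Δ s} from hb) hg0
    · right
      exact Set.mem_biUnion (show g0 ∈ {g0 | Δ g0 * c ≠ Δ s} from hb) hg0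
  have hmem : cpt s ∈ connectedComponentIn (specialFibre G) (cpt s) :=
    mem_connectedComponentIn (cpt_mem_specialFibre s)
  have hA : (connectedComponentIn (specialFibre G) (cpt s) ∩ O1).Nonempty := by
    refine ⟨cpt s, hmem, ?_⟩
    refine Set.mem_biUnion (x := s * v⁻¹) ?_ (hself s)
    exact (h1 _ _ (hself s)).symm
  have hB : (connectedComponentIn (specialFibre G) (cpt s) ∩ O2).Nonempty := by
    refine ⟨cpt s', hss, ?_⟩
    refine Set.mem_biUnion (x := s' * v⁻¹) ?_ (hself s')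
    show Δ (s' * v⁻¹) * c ≠ Δ s
    rw [← h1 _ _ (hself s')]
    exact fun h => hne h.symm
  obtain ⟨x, hx, hx1, hx2⟩ := hpre O1 O2 hO1 hO2 hcov hA hB
  simp only [O1, O2, Set.mem_iUnion, Set.mem_ofPred_eq] at hx1 hx2
  obtain ⟨g0, hg0, hxg0⟩ := hx1
  obtain ⟨g1, hg1, hxg1⟩ := hx2
  exact hg1 (by rw [← h3 g0 g1 x (hsub hx) hxg0 hxg1, hg0])

end Pool.Agent.Helper83.Tm
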